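import Mathlib
import Pool.Agent.helper22.WC.Spec

/-!
# Project wc, row SRL

The homomorphisms of the surface group to a subgroup `L`.
-/

set_option autoImplicit false

namespace Pool.Agent.WC

open Pool.Agent.helper58.DC Pool.Agent.DI Pool.Agent.DR

/-- The homomorphism `ε` maps the product of commutators of `Y` to that of `X`. -/
theorem SRL_cprod {K' E' G E A : Type} [Group K'] [Group E'] [Group G] [Group E] [Group A]
    (Y : Extension K' E' A) (X : Extension G E A) (σ : Sub Y X) {n : ℕ} (x : Fin n → E')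
    (y : Fin n → K') : σ.ε (cprod Y x y) = cprod X (fun i => σ.ε (x i)) (fun i => σ.j (y i)) := by
  unfold cprod
  rw [map_list_prod, List.map_ofFn]
  have h : (σ.ε ∘ fun i => x i * Y.inc (y i) * (x i)⁻¹ * (Y.inc (y i))⁻¹) =
      fun i => σ.ε (x i) * X.inc (σ.j (y i)) * (σ.ε (x i))⁻¹ * (X.inc (σ.j (y i)))⁻¹ := by
    funext i
    simp only [Function.comp_apply, map_mul, map_inv, σ.inc]
  rw [h]

/-- The tuples of `Y` are the tuples of `X` with entries in the range of `ε`. -/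
theorem SRL_card {K' E' G E A : Type} [Group K'] [Group E'] [Group G] [Group E] [Group A]
    (Y : Extension K' E' A) (X : Extension G E A) (σ : Sub Y X)
    (h3 : ∀ g, X.inc g ∈ σ.ε.range ↔ g ∈ σ.j.range) {n : ℕ} (a : Fin n → A) :
    homL X a σ.ε.range = homL Y a ⊤ := by
  unfold homL
  symm
  refine Nat.card_congr (Equiv.ofBijective
    (fun z : {z : (Fin n → E') × (Fin n → K') // (∀ i, Y.proj (z.1 i) = a i) ∧ cprod Y z.1 z.2 = 1 ∧
      (∀ i, z.1 i ∈ (⊤ : Subgroup E')) ∧ ∀ i, Y.inc (z.2 i) ∈ (⊤ : Subgroup E')} =>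
      (⟨((fun i => σ.ε (z.1.1 i)), (fun i => σ.j (z.1.2 i))), ?_, ?_, ?_, ?_⟩ :
        {z : (Fin n → E) × (Fin n → G) // (∀ i, X.proj (z.1 i) = a i) ∧ cprod X z.1 z.2 = 1 ∧
      (∀ i, z.1 i ∈ σ.ε.range) ∧ ∀ i, X.inc (z.2 i) ∈ σ.ε.range})) ⟨?_, ?_⟩)
  · intro i
    show X.proj (σ.ε (z.1.1 i)) = a i
    rw [σ.proj]
    exact z.2.1 i
  · show cprod X (fun i => σ.ε (z.1.1 i)) (fun i => σ.j (z.1.2 i)) = 1
    rw [← SRL_cprod, z.2.2.1, map_one]
  · intro i
    exact ⟨z.1.1 i, rfl⟩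
  · intro i
    exact ⟨Y.inc (z.1.2 i), σ.inc _⟩
  · rintro ⟨⟨x, y⟩, hz⟩ ⟨⟨x', y'⟩, hz'⟩ h
    have h1 := congrArg Subtype.val h
    have h2 : (fun i => σ.ε (x i)) = fun i => σ.ε (x' i) := congrArg Prod.fst h1
    have h4 : (fun i => σ.j (y i)) = fun i => σ.j (y' i) := congrArg Prod.snd h1
    have hx : x = x' := by
      funext i
      exact σ.ε_inj (congrFun h2 i)
    have hy : y = y' := by
      funext i
      exact σ.j_inj (congrFun h4 i)
    subst hx
    subst hy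
    rfl
  · rintro ⟨⟨x, y⟩, hz1, hz2, hz3, hz4⟩
    have hx : ∀ i, ∃ e, σ.ε e = x i := fun i => hz3 i
    have hy : ∀ i, ∃ k, σ.j k = y i := fun i => (h3 (y i)).1 (hz4 i)
    choose x' hx' using hx
    choose y' hy' using hy
    have ex : (fun i => σ.ε (x' i)) = x := funext hx'
    have ey : (fun i => σ.j (y' i)) = y := funext hy'
    subst ex
    subst ey
    refine ⟨⟨(x', y'), ?_, ?_, fun i => Subgroup.mem_top _, fun i => Subgroup.mem_top _⟩, rfl⟩
    · intro i
      show Y.proj (x' i) = a i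
      rw [← σ.proj]
      exact hz1 i
    · show cprod Y x' y' = 1
      apply σ.ε_inj
      rw [SRL_cprod, map_one]
      exact hz2

/-- A subgroup which maps onto `A` is a supplement. -/
theorem SRL_sup {G E A : Type} [Group G] [Group E] [Group A] (X : Extension G E A)
    (L : Subgroup E) (h : L.map X.proj = ⊤) : L ⊔ X.inc.range = ⊤ := by
  rw [eq_top_iff]
  intro e _
  have h1 : X.proj e ∈ L.map X.proj := by
    rw [h]
    exact Subgroup.mem_top _
  obtain ⟨l, hl, hle⟩ := h1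
  have h2 : X.proj (l⁻¹ * e) = 1 := by
    rw [map_mul, map_inv, hle, inv_mul_cancel]
  obtain ⟨g, hg⟩ := (X.exact _).1 h2
  have h3 : e = l * X.inc g := by
    rw [hg, mul_inv_cancel_left]
  rw [h3]
  exact mul_mem (Subgroup.mem_sup_left hl) (Subgroup.mem_sup_right ⟨g, rfl⟩)

/-- The values of `ext0` on the subgroup. -/
theorem SRL_ext0 {K' G : Type} [Group K'] [Group G] (j : K' →* G) (hj : Function.Injective j)
    (ψ : K' → ℂ) (k : K') : ext0 j ψ (j k) = ψ k := by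
  unfold ext0
  exact hj.extend_apply ψ 0 k

/-- The values of `ext0` outside the subgroup. -/
theorem SRL_ext0' {K' G : Type} [Group K'] [Group G] (j : K' →* G)
    (ψ : K' → ℂ) (g : G) (hg : g ∉ j.range) : ext0 j ψ g = 0 := by
  unfold ext0
  rw [Function.extend_apply' ψ (0 : G → ℂ) g (fun ⟨k, hk⟩ => hg ⟨k, hk⟩)]
  rfl

/-- The action on `ext0 j ψ`. -/
theorem SRL_act {K' E' G E A : Type} [Group K'] [Group E'] [Group G] [Group E] [Group A]
    (Y : Extension K' E' A) (X : Extension G E A) (σ : Sub Y X)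
    (h4 : ∀ (e : E') (k : K'), σ.j (Y.act e k) = X.act (σ.ε e) (σ.j k)) (e : E') (ψ : K' → ℂ) :
    funMap (X.act (σ.ε e)) (ext0 σ.j ψ) = ext0 σ.j (funMap (Y.act e) ψ) := by
  have key : ∀ k : K', (X.act (σ.ε e))⁻¹ (σ.j k) = σ.j ((Y.act e)⁻¹ k) := by
    intro k
    have h := h4 e ((Y.act e)⁻¹ k)
    rw [MulAut.apply_inv_self] at h
    rw [h, MulAut.inv_apply_self]
  funext g
  show ext0 σ.j ψ ((X.act (σ.ε e))⁻¹ g) = ext0 σ.j (funMap (Y.act e) ψ) g
  by_cases hg : g ∈ σ.j.range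
  · obtain ⟨k, rfl⟩ := hg
    rw [key, SRL_ext0 σ.j σ.j_inj, SRL_ext0 σ.j σ.j_inj]
    rfl
  · rw [SRL_ext0' σ.j _ g hg, SRL_ext0' σ.j _ _ ?_]
    rintro ⟨k, hk⟩
    apply hg
    refine ⟨Y.act e k, ?_⟩
    rw [h4 e k, hk, MulAut.apply_inv_self]

/-- A class function on `L ∩ G` which is fixed by the elements over the generators of `A` is fixed by `L`. -/
theorem SRL_inv {G E A : Type} [Group G] [Group E] [Group A] (X : Extension G E A)
    (L : Subgroup E) (η : G → ℂ) (hcl : ∀ h ∈ L.comap X.inc, ∀ g, η (h * g * h⁻¹) = η g)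
    {n : ℕ} (a : Fin n → A) (ha : Subgroup.closure (Set.range a) = ⊤)
    (hs : ∀ i, ∃ e ∈ L, X.proj e = a i)
    (hfix : ∀ e ∈ L, X.proj e ∈ Set.range a → funMap (X.act e) η = η) :
    ∀ e ∈ L, funMap (X.act e) η = η := by
  classical
  intro e he
  have hT : (X.stab ∅ η ⊓ L).map X.proj = ⊤ := by
    rw [eq_top_iff, ← ha, Subgroup.closure_le]
    rintro _ ⟨i, rfl⟩
    obtain ⟨t, ht, hta⟩ := hs i
    refine ⟨t, ⟨⟨?_, ?_⟩, ht⟩, hta⟩
    · unfold chainMap
      exact Finset.image_empty _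
    · exact hfix t ht ⟨i, hta.symm⟩
  have h1 : X.proj e ∈ (X.stab ∅ η ⊓ L).map X.proj := by
    rw [hT]
    exact Subgroup.mem_top _
  obtain ⟨t, ⟨ht1, ht2⟩, hte⟩ := h1
  have h2 : X.proj (t⁻¹ * e) = 1 := by
    rw [map_mul, map_inv, hte, inv_mul_cancel]
  obtain ⟨g, hg⟩ := (X.exact _).1 h2
  have hgL : g ∈ L.comap X.inc := by
    show X.inc g ∈ L
    rw [hg]
    exact mul_mem (inv_mem ht2) he
  have hgs : X.inc g ∈ X.stab ∅ η := by
    refine ⟨?_, ?_⟩
    · unfold chainMap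
      exact Finset.image_empty _
    · have hc : X.act (X.inc g) = MulAut.conj g := by
        apply MulEquiv.ext
        intro x
        apply X.inc_injective
        rw [X.act_spec, MulAut.conj_apply, map_mul, map_mul, map_inv]
      funext x
      show η ((X.act (X.inc g))⁻¹ x) = η x
      rw [hc, ← map_inv, MulAut.conj_apply]
      exact hcl g⁻¹ (inv_mem hgL) x
  have h3 : e = t * X.inc g := by
    rw [hg, mul_inv_cancel_left]
  rw [h3]
  exact ((X.stab ∅ η).mul_mem ht1 hgs).2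

theorem SRL (hSKC : SKC_stmt) (hSBX : SBX_stmt) (hB13 : Pool.Agent.DI.B13_stmt) (hIF : IF_stmt) :
    SRL_stmt := by
  intro G E A _ _ _ _ _ X m a ha L
  constructor
  · intro hL
    unfold homL
    rw [Nat.card_eq_zero]
    left
    refine ⟨?_⟩
    rintro ⟨⟨x, y⟩, h1, h2, h3, h4⟩
    apply hL
    apply SRL_sup X L
    rw [eq_top_iff, ← ha, Subgroup.closure_le]
    rintro _ ⟨i, rfl⟩
    exact ⟨x i, h3 i, h1 i⟩
  · intro hL
    obtain ⟨hS1, -, hS3⟩ := hSBX G E A X
    obtain ⟨Y, σ, hj, hε⟩ := hS1 L hL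
    obtain ⟨h3, -, -, h4⟩ := hS3 _ _ Y σ
    have hr : σ.ε.range = L := by
      rw [hε, Subgroup.range_subtype]
    have hjr : σ.j.range = L.comap X.inc := by
      rw [hj, Subgroup.range_subtype]
    have hjv : ∀ k : ↥(L.comap X.inc), σ.j k = (k : G) := by
      intro k
      rw [hj]
      rfl
    have hεv : ∀ e : ↥L, σ.ε e = (e : E) := by
      intro e
      rw [hε]
      rfl
    have hc := SRL_card Y X σ h3 a
    rw [hr] at hc
    rw [hc, hSKC _ _ A Y m a]
    congr 1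
    have hext : ∀ (ψ : ↥(L.comap X.inc) → ℂ) (k : ↥(L.comap X.inc)), ext0 σ.j ψ (k : G) = ψ k := by
      intro ψ k
      rw [← hjv k]
      exact SRL_ext0 σ.j σ.j_inj ψ k
    have hirr : ∀ ψ : ↥(L.comap X.inc) → ℂ, ψ ∈ Irr ↥(L.comap X.inc) →
        ext0 σ.j ψ ∈ IrrOn (L.comap X.inc) := by
      intro ψ hψ
      refine ⟨?_, ?_⟩
      · intro g hg
        apply SRL_ext0' σ.j ψ g
        rw [hjr]
        exact hg
      · have : (fun h : ↥(L.comap X.inc) => ext0 σ.j ψ (h : G)) = ψ := funext (hext ψ)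
        rw [this]
        exact hψ
    have hfixiff : ∀ (ψ : ↥(L.comap X.inc) → ℂ) (e : ↥L), funMap (Y.act e) ψ = ψ ↔
        funMap (X.act (e : E)) (ext0 σ.j ψ) = ext0 σ.j ψ := by
      intro ψ e
      rw [← hεv e, SRL_act Y X σ h4 e ψ]
      constructor
      · intro h
        rw [h]
      · intro h
        funext k
        rw [← hext (funMap (Y.act e) ψ) k, h, hext]
    refine finsum_mem_eq_of_bijOn (ext0 σ.j) ⟨?_, ?_, ?_⟩ ?_
    · rintro ψ ⟨hψ, hinv⟩
      refine ⟨hirr ψ hψ, ?_⟩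
      have hη := hirr ψ hψ
      refine SRL_inv X L _ ((hIF G (L.comap X.inc)).2 _ hη).2.1 a ha ?_ ?_
      · intro i
        obtain ⟨e, he⟩ := Y.proj_surjective (a i)
        refine ⟨(e : E), e.2, ?_⟩
        rw [← hεv e, σ.proj]
        exact he
      · intro e he hea
        have h5 := hinv ⟨e, he⟩ (by
          rw [← σ.proj, hεv]
          exact hea)
        exact (hfixiff ψ ⟨e, he⟩).1 h5
    · intro ψ _ ψ' _ h
      funext k
      have h' : ext0 σ.j ψ = ext0 σ.j ψ' := h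
      rw [← hext ψ k, ← hext ψ' k, h']
    · rintro η ⟨hη, hinv⟩
      have hre : ext0 σ.j (fun h : ↥(L.comap X.inc) => η (h : G)) = η := by
        funext g
        by_cases hg : g ∈ L.comap X.inc
        · exact hext (fun h : ↥(L.comap X.inc) => η (h : G)) ⟨g, hg⟩
        · rw [SRL_ext0' σ.j _ g (by rw [hjr]; exact hg)]
          exact (hη.1 g hg).symm
      refine ⟨fun h : ↥(L.comap X.inc) => η (h : G), ⟨hη.2, ?_⟩, hre⟩
      intro e _
      rw [hfixiff, hre]
      exact hinv (e : E) e.2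
    · rintro ψ ⟨hψ, -⟩
      have h6 : ext0 σ.j ψ 1 = ψ 1 := hext ψ 1
      rw [h6]

end Pool.Agent.WC
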